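import Pool.Agent.X155.CoshFinal

/-!
# MP_c909fd_al (Q1): a topological space whose category of cosheaves of abelian groups is not
abelian
-/

set_option autoImplicit false

open CategoryTheory TopologicalSpace

namespace Pool.Agent.Results.MP_c909fd_al.CosheavesNotAbelian

open Pool.Agent.X155.Cosh

theorem balanced_of_abelian (C : Type 1) [Category.{0} C] (h : Abelian C) : Balanced C := by
  infer_instance

/-- There is a topological space `X` for which the category `CS X` of cosheaves of abelian groups
is not abelian: it carries no structure of an abelian category. Indeed `CS X` has a morphism which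
is a monomorphism and an epimorphism but not an isomorphism. -/
theorem result : ∃ (X : Type) (_ : TopologicalSpace X),
    IsEmpty (Abelian (CS X)) ∧
    ∃ (𝒜 ℬ : CS X) (f : 𝒜 ⟶ ℬ), Mono f ∧ Epi f ∧ ¬ IsIso f := by
  refine ⟨Sp W1, inferInstance, ?_, ?_⟩
  · refine ⟨fun h => ?_⟩
    have h1 := monoF (P := W1) W1_countable W1_inj
    have h2 := epiF (P := W1) W1_countable W1_inj
    have h3 : Balanced (CS (Sp W1)) := balanced_of_abelian _ h
    exact not_isoF (P := W1) W1_countable W1_inj
      (isIso_of_mono_of_epi (morF (P := W1) W1_countable W1_inj))
  · exact ⟨_, _, morF (P := W1) W1_countable W1_inj, monoF _ _, epiF _ _, not_isoF _ _⟩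

end Pool.Agent.Results.MP_c909fd_al.CosheavesNotAbelian
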